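import Mathlib

namespace Pool.Agent.Results.MP_f85992_lc.ResidualFails

open Finset Module

/-- `I` is a recovery set for the `j`-th data symbol of the encoder `a ↦ a G`: the restriction to
`I` of the codeword of `a` determines `a j`. -/
def IsRecovery {F : Type} [Field F] {k n : ℕ} (G : Matrix (Fin k) (Fin n) F) (j : Fin k)
    (I : Finset (Fin n)) : Prop :=
  ∀ a b : Fin k → F, (∀ x ∈ I, Matrix.vecMul a G x = Matrix.vecMul b G x) → a j = b j

/-- `G` is a linear `(t_1, …, t_k)`-PIR code: the encoder is one-to-one and for every `j` there are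
`t j` pairwise disjoint recovery sets for the `j`-th data symbol. -/
def IsPIR {F : Type} [Field F] {k n : ℕ} (G : Matrix (Fin k) (Fin n) F) (t : Fin k → ℕ) : Prop :=
  Function.Injective (fun a : Fin k → F => Matrix.vecMul a G) ∧
    ∀ j, ∃ R : Fin (t j) → Finset (Fin n),
      (∀ x y, x ≠ y → Disjoint (R x) (R y)) ∧ ∀ x, IsRecovery G j (R x)

/-- `N F s` is the smallest length of a linear `(s_1, …, s_m)`-PIR code over `F`. -/
noncomputable def N (F : Type) [Field F] {m : ℕ} (s : Fin m → ℕ) : ℕ :=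
  sInf {n | ∃ G : Matrix (Fin m) (Fin n) F, IsPIR G s}

/-- Statement Q1 (with `k = m + 1` data symbols; indices start from `0`). -/
def Q1 : Prop :=
  ∀ (F : Type) [Field F] [Fintype F] (m n : ℕ) (t : Fin (m + 1) → ℕ), 1 ≤ m →
    (∀ i j, i ≤ j → t j ≤ t i) → (∀ j, 1 ≤ t j) →
    (∃ G : Matrix (Fin (m + 1)) (Fin n) F, IsPIR G t) →
    ∃ G' : Matrix (Fin m) (Fin (n - t 0)) F,
      IsPIR G' (fun j => ⌈(t j.succ : ℚ) / (Fintype.card F : ℚ)⌉₊)

/-! ### The lower bound: no `(3,3,3,3)`-PIR code of length at most `7` -/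

section lower

/-- From a recovery set one gets a combination of its columns equal to the unit vector. -/
lemma exists_comb {F : Type} [Field F] {k n : ℕ} (G : Matrix (Fin k) (Fin n) F) (j : Fin k)
    (I : Finset (Fin n)) (h : IsRecovery G j I) :
    ∃ s : Fin n → F, (∀ x, x ∉ I → s x = 0) ∧ G.mulVec s = Pi.single j 1 := by
  classical
  let L : I → (Fin k → F) →ₗ[F] F := fun x =>
    (LinearMap.proj (x : Fin n)).comp (Matrix.vecMulLinear G)
  let K : (Fin k → F) →ₗ[F] F := LinearMap.proj j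
  have hK : K ∈ Submodule.span F (Set.range L) := by
    apply mem_span_of_iInf_ker_le_ker
    intro a ha
    rw [Submodule.mem_iInf] at ha
    rw [LinearMap.mem_ker]
    have := h a 0 (fun x hx => by
      have h1 := ha ⟨x, hx⟩
      rw [LinearMap.mem_ker] at h1
      simpa [L] using h1)
    simpa [K] using this
  rw [Submodule.mem_span_range_iff_exists_fun] at hK
  obtain ⟨c, hc⟩ := hK
  refine ⟨fun x => if hx : x ∈ I then c ⟨x, hx⟩ else 0, fun x hx => by simp [hx], ?_⟩
  funext l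
  have h2 := congrArg (fun f : (Fin k → F) →ₗ[F] F => f (Pi.single l 1)) hc
  simp only [LinearMap.sum_apply, LinearMap.smul_apply, smul_eq_mul] at h2
  have h3 : ∀ x : I, L x (Pi.single l 1) = G l x := by
    intro x
    simp [L]
  have h4 : K (Pi.single l 1) = (Pi.single j 1 : Fin k → F) l := by
    simp only [K, LinearMap.proj_apply, Pi.single_apply]
    by_cases hjl : j = l
    · simp [hjl]
    · simp [hjl, Ne.symm hjl]
  rw [h4] at h2
  rw [← h2]
  simp only [Matrix.mulVec, dotProduct]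
  rw [← Finset.sum_subset (Finset.subset_univ I)
    (by intro x _ hx; simp [hx])]
  rw [← Finset.sum_attach]
  rw [Finset.univ_eq_attach]
  apply Finset.sum_congr rfl
  intro x _
  rw [h3 x]
  simp [mul_comm]

/-- Over `F_2` a `t`-PIR code with all `t_j ≥ 3` has `k` at most the number of pairs `i < l` of a
basis of the dual code. -/
lemma key {k n r : ℕ} (G : Matrix (Fin k) (Fin n) (ZMod 2)) (t : Fin k → ℕ) (ht : ∀ j, 3 ≤ t j)
    (hG : IsPIR G t) (hr : k + r = n) :
    k ≤ ((Finset.univ : Finset (Fin r × Fin r)).filter (fun p => p.1 < p.2)).card := by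
  classical
  obtain ⟨-, hR⟩ := hG
  set Φ : (Fin n → ZMod 2) →ₗ[ZMod 2] (Fin k → ZMod 2) := Matrix.mulVecLin G with hΦ
  have hΦa : ∀ s, Φ s = G.mulVec s := fun s => rfl
  -- for each j two words of the dual code whose product has image `e_j`
  have h1 : ∀ j, ∃ a b : Fin n → ZMod 2, Φ a = 0 ∧ Φ b = 0 ∧ Φ (a * b) = Pi.single j 1 := by
    intro j
    obtain ⟨R, hdis, hrec⟩ := hR j
    have h3 := ht j
    choose s hs0 hs1 using fun x => exists_comb G j (R x) (hrec x)
    let x0 : Fin (t j) := ⟨0, by omega⟩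
    let x1 : Fin (t j) := ⟨1, by omega⟩
    let x2 : Fin (t j) := ⟨2, by omega⟩
    have hprod : ∀ x y, x ≠ y → s x * s y = 0 := by
      intro x y hxy
      funext i
      by_cases hi : i ∈ R x
      · have : i ∉ R y := Finset.disjoint_left.mp (hdis x y hxy) hi
        simp [hs0 y i this]
      · simp [hs0 x i hi]
    have hsq : ∀ x, s x * s x = s x := by
      intro x
      funext i
      have : ∀ z : ZMod 2, z * z = z := by decide
      exact this _
    have h01 : x0 ≠ x1 := by simp [x0, x1, Fin.ext_iff]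
    have h02 : x0 ≠ x2 := by simp [x0, x2, Fin.ext_iff]
    have h12 : x1 ≠ x2 := by simp [x1, x2, Fin.ext_iff]
    have hcc : ∀ v : Fin k → ZMod 2, v + v = 0 := by
      intro v
      funext i
      have : ∀ z : ZMod 2, z + z = 0 := by decide
      exact this _
    refine ⟨s x0 + s x1, s x0 + s x2, ?_, ?_, ?_⟩
    · rw [map_add, hΦa, hΦa, hs1, hs1, hcc]
    · rw [map_add, hΦa, hΦa, hs1, hs1, hcc]
    · have : (s x0 + s x1) * (s x0 + s x2) = s x0 := by
        rw [add_mul, mul_add, mul_add, hsq, hprod _ _ h02, hprod _ _ h01.symm, hprod _ _ h12]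
        simp
      rw [this, hΦa, hs1]
  -- surjectivity and the dimension of the dual code
  have hspan : ∀ W : Submodule (ZMod 2) (Fin k → ZMod 2),
      (∀ j, (Pi.single j 1 : Fin k → ZMod 2) ∈ W) → W = ⊤ := by
    intro W hW
    rw [eq_top_iff]
    intro v _
    have hv : v = ∑ j, v j • (Pi.single j 1 : Fin k → ZMod 2) := by
      funext l
      simp [Finset.sum_apply, Pi.single_apply]
    rw [hv]
    exact Submodule.sum_mem _ (fun j _ => Submodule.smul_mem _ _ (hW j))
  have hsurj : LinearMap.range Φ = ⊤ := by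
    apply hspan
    intro j
    obtain ⟨a, b, -, -, hab⟩ := h1 j
    exact ⟨a * b, hab⟩
  have hker : finrank (ZMod 2) (LinearMap.ker Φ) = r := by
    have := LinearMap.finrank_range_add_finrank_ker Φ
    rw [hsurj, finrank_top] at this
    simp only [Module.finrank_fintype_fun_eq_card, Fintype.card_fin] at this
    omega
  let d : Basis (Fin r) (ZMod 2) (LinearMap.ker Φ) := Module.finBasisOfFinrankEq _ _ hker
  let P : Finset (Fin r × Fin r) := Finset.univ.filter (fun p => p.1 < p.2)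
  let f : Fin r × Fin r → (Fin k → ZMod 2) :=
    fun p => Φ ((d p.1 : Fin n → ZMod 2) * (d p.2 : Fin n → ZMod 2))
  let W : Submodule (ZMod 2) (Fin k → ZMod 2) :=
    Submodule.span (ZMod 2) ((P.image f : Finset _) : Set (Fin k → ZMod 2))
  have hW : W = ⊤ := by
    apply hspan
    intro j
    obtain ⟨a, b, ha, hb, hab⟩ := h1 j
    rw [← hab]
    have ha' := d.sum_repr ⟨a, LinearMap.mem_ker.mpr ha⟩
    have hb' := d.sum_repr ⟨b, LinearMap.mem_ker.mpr hb⟩
    set α := d.repr ⟨a, LinearMap.mem_ker.mpr ha⟩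
    set β := d.repr ⟨b, LinearMap.mem_ker.mpr hb⟩
    have ha2 : a = ∑ i, α i • (d i : Fin n → ZMod 2) := by
      have := congrArg (Subtype.val) ha'
      simpa using this.symm
    have hb2 : b = ∑ i, β i • (d i : Fin n → ZMod 2) := by
      have := congrArg (Subtype.val) hb'
      simpa using this.symm
    rw [ha2, hb2, Finset.sum_mul_sum, map_sum]
    refine Submodule.sum_mem _ (fun i _ => ?_)
    rw [map_sum]
    refine Submodule.sum_mem _ (fun l _ => ?_)
    rw [smul_mul_smul_comm, map_smul]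
    apply Submodule.smul_mem
    have hmem : ∀ i l : Fin r, i < l → f (i, l) ∈ W := by
      intro i l hil
      apply Submodule.subset_span
      simp only [Finset.coe_image]
      exact ⟨(i, l), by simp [P, hil], rfl⟩
    rcases lt_trichotomy i l with h | h | h
    · exact hmem i l h
    · subst h
      have : (d i : Fin n → ZMod 2) * (d i : Fin n → ZMod 2) = (d i : Fin n → ZMod 2) := by
        funext x
        have : ∀ z : ZMod 2, z * z = z := by decide
        exact this _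
      rw [this, LinearMap.mem_ker.mp (d i).2]
      exact Submodule.zero_mem _
    · have := hmem l i h
      simp only [f] at this
      rwa [mul_comm] at this
  have h5 : finrank (ZMod 2) W ≤ (P.image f).card := finrank_span_finset_le_card _
  rw [hW, finrank_top] at h5
  simp only [Module.finrank_fintype_fun_eq_card, Fintype.card_fin] at h5
  exact h5.trans Finset.card_image_le

/-- There is no binary `(3,3,3,3)`-PIR code of length at most `7`. -/
lemma no_code {n : ℕ} (hn : n ≤ 7) (G : Matrix (Fin 4) (Fin n) (ZMod 2)) :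
    ¬ IsPIR G (fun _ => 3) := by
  intro hG
  -- injectivity gives `4 ≤ n`
  have h4 : 4 ≤ n := by
    have hinj := hG.1
    have := LinearMap.finrank_le_finrank_of_injective (f := Matrix.vecMulLinear G) hinj
    simpa using this
  obtain ⟨r, hr⟩ := Nat.exists_eq_add_of_le h4
  have h5 := key (r := r) G (fun _ => 3) (fun _ => le_rfl) hG hr.symm
  have hr3 : r ≤ 3 := by omega
  have : ((Finset.univ : Finset (Fin r × Fin r)).filter (fun p => p.1 < p.2)).card ≤ 3 := by
    interval_cases r <;> decide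
  omega

end lower

/-! ### The explicit codes -/

section upper

/-- A set of columns whose sum is the `j`-th unit vector is a recovery set for symbol `j`. -/
lemma recovery_of_sum {F : Type} [Field F] {k n : ℕ} (G : Matrix (Fin k) (Fin n) F) (j : Fin k)
    (I : Finset (Fin n)) (h : ∀ i, ∑ x ∈ I, G i x = if i = j then 1 else 0) :
    IsRecovery G j I := by
  have key : ∀ a : Fin k → F, a j = ∑ x ∈ I, Matrix.vecMul a G x := by
    intro a
    simp only [Matrix.vecMul, dotProduct]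
    rw [Finset.sum_comm]
    simp only [← Finset.mul_sum, h]
    simp
  intro a b hab
  rw [key a, key b]
  exact Finset.sum_congr rfl hab

/-- The recovery sets alone make the encoder one-to-one. -/
lemma isPIR_of {F : Type} [Field F] {k n : ℕ} (G : Matrix (Fin k) (Fin n) F) (t : Fin k → ℕ)
    (ht : ∀ j, 1 ≤ t j) (h : ∀ j, ∃ R : Fin (t j) → Finset (Fin n),
      (∀ x y, x ≠ y → Disjoint (R x) (R y)) ∧
      ∀ x, ∀ i, ∑ z ∈ R x, G i z = if i = j then 1 else 0) : IsPIR G t := by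
  have h2 : ∀ j, ∃ R : Fin (t j) → Finset (Fin n),
      (∀ x y, x ≠ y → Disjoint (R x) (R y)) ∧ ∀ x, IsRecovery G j (R x) := by
    intro j
    obtain ⟨R, h1, h2⟩ := h j
    exact ⟨R, h1, fun x => recovery_of_sum G j (R x) (h2 x)⟩
  refine ⟨?_, h2⟩
  intro a b hab
  funext j
  obtain ⟨R, -, hR⟩ := h2 j
  exact hR ⟨0, ht j⟩ a b (fun x _ => congrFun hab x)

/-- The columns are `(a, b, u, v, 1)` with `(u, v) ≠ 0`, and `(0, 0, 0, 0, 1)`. -/
def G13 : Matrix (Fin 5) (Fin 13) (ZMod 2) :=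
  !![0, 1, 0, 1, 0, 1, 0, 1, 0, 1, 0, 1, 0;
     0, 0, 1, 1, 0, 0, 1, 1, 0, 0, 1, 1, 0;
     1, 1, 1, 1, 0, 0, 0, 0, 1, 1, 1, 1, 0;
     0, 0, 0, 0, 1, 1, 1, 1, 1, 1, 1, 1, 0;
     1, 1, 1, 1, 1, 1, 1, 1, 1, 1, 1, 1, 1]

/-- A systematic `(3,3,3,3)`-PIR code of length `8` (a `2 × 2` array with row and column
parities). -/
def G8 : Matrix (Fin 4) (Fin 8) (ZMod 2) :=
  !![1, 0, 0, 0, 1, 0, 1, 0;
     0, 1, 0, 0, 1, 0, 0, 1;
     0, 0, 1, 0, 0, 1, 1, 0;
     0, 0, 0, 1, 0, 1, 0, 1]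

lemma G13_isPIR : IsPIR G13 ![6, 6, 5, 5, 5] := by
  apply isPIR_of
  · decide
  · intro j
    fin_cases j
    · show ∃ R : Fin 6 → Finset (Fin 13), (∀ x y, x ≠ y → Disjoint (R x) (R y)) ∧
        ∀ x, ∀ i, ∑ z ∈ R x, G13 i z = if i = (0 : Fin 5) then 1 else 0
      exact ⟨(![{0, 1}, {2, 3}, {4, 5}, {6, 7}, {8, 9}, {10, 11}] : Fin 6 → Finset (Fin 13)),
        by decide, by decide⟩
    · show ∃ R : Fin 6 → Finset (Fin 13), (∀ x y, x ≠ y → Disjoint (R x) (R y)) ∧
        ∀ x, ∀ i, ∑ z ∈ R x, G13 i z = if i = (1 : Fin 5) then 1 else 0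
      exact ⟨(![{0, 2}, {1, 3}, {4, 6}, {5, 7}, {8, 10}, {9, 11}] : Fin 6 → Finset (Fin 13)),
        by decide, by decide⟩
    · show ∃ R : Fin 5 → Finset (Fin 13), (∀ x y, x ≠ y → Disjoint (R x) (R y)) ∧
        ∀ x, ∀ i, ∑ z ∈ R x, G13 i z = if i = (2 : Fin 5) then 1 else 0
      exact ⟨(![{0, 12}, {4, 8}, {5, 9}, {6, 10}, {7, 11}] : Fin 5 → Finset (Fin 13)),
        by decide, by decide⟩
    · show ∃ R : Fin 5 → Finset (Fin 13), (∀ x y, x ≠ y → Disjoint (R x) (R y)) ∧
        ∀ x, ∀ i, ∑ z ∈ R x, G13 i z = if i = (3 : Fin 5) then 1 else 0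
      exact ⟨(![{4, 12}, {0, 8}, {1, 9}, {2, 10}, {3, 11}] : Fin 5 → Finset (Fin 13)),
        by decide, by decide⟩
    · show ∃ R : Fin 5 → Finset (Fin 13), (∀ x y, x ≠ y → Disjoint (R x) (R y)) ∧
        ∀ x, ∀ i, ∑ z ∈ R x, G13 i z = if i = (4 : Fin 5) then 1 else 0
      exact ⟨(![{12}, {0, 4, 8}, {1, 6, 11}, {2, 7, 9}, {3, 5, 10}] : Fin 5 → Finset (Fin 13)),
        by decide, by decide⟩

lemma G8_isPIR : IsPIR G8 (fun _ => 3) := by
  apply isPIR_of
  · decide
  · intro j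
    fin_cases j
    · exact ⟨(![{0}, {1, 4}, {2, 6}] : Fin 3 → Finset (Fin 8)), by decide, by decide⟩
    · exact ⟨(![{1}, {0, 4}, {3, 7}] : Fin 3 → Finset (Fin 8)), by decide, by decide⟩
    · exact ⟨(![{2}, {3, 5}, {0, 6}] : Fin 3 → Finset (Fin 8)), by decide, by decide⟩
    · exact ⟨(![{3}, {2, 5}, {1, 7}] : Fin 3 → Finset (Fin 8)), by decide, by decide⟩

end upper

lemma N_8 : N (ZMod 2) ![3, 3, 3, 3] = 8 := by
  have e : (![3, 3, 3, 3] : Fin 4 → ℕ) = fun _ => 3 := by decide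
  rw [e]
  apply le_antisymm
  · exact Nat.sInf_le ⟨G8, G8_isPIR⟩
  · have hne : {n | ∃ G : Matrix (Fin 4) (Fin n) (ZMod 2), IsPIR G (fun _ => 3)}.Nonempty :=
      ⟨8, G8, G8_isPIR⟩
    obtain ⟨G, hG⟩ := Nat.sInf_mem hne
    by_contra hlt
    exact no_code (Nat.le_of_lt_succ (not_le.mp hlt)) G hG

lemma N_13 : N (ZMod 2) ![6, 6, 5, 5, 5] ≤ 13 := Nat.sInf_le ⟨G13, G13_isPIR⟩

lemma not_Q1 : ¬ Q1 := by
  intro h
  obtain ⟨G', hG'⟩ := h (ZMod 2) 4 13 ![6, 6, 5, 5, 5] (by norm_num) (by decide) (by decide)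
    ⟨G13, G13_isPIR⟩
  have e : (fun j : Fin 4 => ⌈(((![6, 6, 5, 5, 5] : Fin 5 → ℕ) j.succ : ℕ) : ℚ) /
      (Fintype.card (ZMod 2) : ℚ)⌉₊) = fun _ => 3 := by
    funext j
    rw [ZMod.card]
    have h5 : ⌈((5 : ℕ) : ℚ) / ((2 : ℕ) : ℚ)⌉₊ = 3 := by
      rw [Nat.ceil_eq_iff (by norm_num)]
      norm_num
    have h6 : ⌈((6 : ℕ) : ℚ) / ((2 : ℕ) : ℚ)⌉₊ = 3 := by
      rw [Nat.ceil_eq_iff (by norm_num)]
      norm_num
    fin_cases j
    · exact h6
    · exact h5
    · exact h5
    · exact h5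
  rw [e] at hG'
  exact no_code (by decide) G' hG'

/-- The matrix `G13` is a binary `(6,6,5,5,5)`-PIR code of length `13`, no binary
`(3,3,3,3)`-PIR code of length at most `13 - 6 = 7` exists, hence
`N_2(6,6,5,5,5) < 6 + N_2(⌈6/2⌉,⌈5/2⌉,⌈5/2⌉,⌈5/2⌉)` and Q1 fails. -/
theorem result :
    IsPIR G13 ![6, 6, 5, 5, 5] ∧
    (∀ n ≤ 7, ∀ G : Matrix (Fin 4) (Fin n) (ZMod 2), ¬ IsPIR G ![3, 3, 3, 3]) ∧
    N (ZMod 2) ![3, 3, 3, 3] = 8 ∧
    N (ZMod 2) ![6, 6, 5, 5, 5] < 6 + N (ZMod 2) ![3, 3, 3, 3] ∧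
    ¬ Q1 := by
  have e : (![3, 3, 3, 3] : Fin 4 → ℕ) = fun _ => 3 := by decide
  refine ⟨G13_isPIR, fun n hn G => ?_, N_8, ?_, not_Q1⟩
  · rw [e]
    exact no_code hn G
  · rw [N_8]
    exact lt_of_le_of_lt N_13 (by norm_num)

end Pool.Agent.Results.MP_f85992_lc.ResidualFails
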